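import Pool.Agent.Y696.CTK.Stm2
import Pool.Agent.Y155.CT.Mwk
import Pool.Agent.Y692.CT.Desq

/-!
# Project CTK: CTK-MWC and CTK-TOR (helper405 for helper696)
-/

set_option autoImplicit false
set_option linter.unusedVariables false

open scoped Classical

namespace Pool.Agent.Y405.CTK

open NumberField IsDedekindDomain WeierstrassCurve
open Pool.Agent.Y692.QS (Ei w nr toC)
open Pool.Agent.Y703.CT
open Pool.Agent.Y715.T.Gi Pool.Agent.Y715.T.Nr Pool.Agent.Y715.T.Df Pool.Agent.Y715.T.Ell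
open Pool.Agent.Y155.CT
open Pool.Agent.Y696.CTK

section gen

variable {k : Type} [Field k]

lemma act_inj (W : WeierstrassCurve k) {F L : Type} [Field F] [Field L] [Algebra k F]
    [Algebra k L] (φ : F →ₐ[k] L) : Function.Injective (Pool.Agent.TH841.SH.D.act W φ) :=
  Affine.Point.map_injective φ

lemma nons_map (W : WeierstrassCurve k) {F L : Type} [Field F] [Field L] [Algebra k F]
    [Algebra k L] (φ : F →ₐ[k] L) {x y : F} :
    (W.baseChange L).toAffine.Nonsingular (φ x) (φ y) ↔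
      (W.baseChange F).toAffine.Nonsingular x y :=
  Affine.baseChange_nonsingular W φ.injective ..

lemma act_some (W : WeierstrassCurve k) {F L : Type} [Field F] [Field L] [Algebra k F]
    [Algebra k L] (φ : F →ₐ[k] L) {x y : F} (h : (W.baseChange F).toAffine.Nonsingular x y) :
    Pool.Agent.TH841.SH.D.act W φ (Affine.Point.some x y h) =
      (Affine.Point.some (φ x) (φ y) ((nons_map W φ).2 h) : (W.baseChange L).toAffine.Point) := rfl

/-- Galois descent for points -/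
lemma descend [CharZero k] (W : WeierstrassCurve k)
    (Q : Pool.Agent.TH841.SH.D.Pt W (AlgebraicClosure k))
    (h : ∀ σ : Pool.Agent.TH841.SH.D.Gal k, Pool.Agent.TH841.SH.D.act W σ.toAlgHom Q = Q) :
    ∃ P : Pool.Agent.TH841.SH.D.Pt W k,
      Pool.Agent.TH841.SH.D.act W (Algebra.ofId k (AlgebraicClosure k)) P = Q := by
  have hmem : ∀ x : AlgebraicClosure k, (∀ σ : Pool.Agent.TH841.SH.D.Gal k, σ x = x) →
      ∃ x₀ : k, algebraMap k (AlgebraicClosure k) x₀ = x := by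
    intro x hx
    have : IsGalois k (AlgebraicClosure k) := inferInstance
    have h1 : x ∈ (⊥ : IntermediateField k (AlgebraicClosure k)) := by
      rw [InfiniteGalois.mem_bot_iff_fixed]
      exact hx
    exact IntermediateField.mem_bot.1 h1
  rcases hQ : Q with _ | ⟨x, y, hn⟩
  · exact ⟨0, map_zero _⟩
  · rw [hQ] at h
    obtain ⟨x₀, hx₀⟩ := hmem x fun σ => by
      have h1 := h σ
      rw [act_some] at h1
      exact (Affine.Point.some.inj h1).1
    obtain ⟨y₀, hy₀⟩ := hmem y fun σ => by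
      have h1 := h σ
      rw [act_some] at h1
      exact (Affine.Point.some.inj h1).2
    subst hx₀ hy₀
    have hn0 : (W.baseChange k).toAffine.Nonsingular x₀ y₀ :=
      (nons_map W (Algebra.ofId k (AlgebraicClosure k))).1 hn
    exact ⟨Affine.Point.some x₀ y₀ hn0, rfl⟩

lemma act_ofId (W : WeierstrassCurve k) (P : Pool.Agent.TH841.SH.D.Pt W k)
    (σ : Pool.Agent.TH841.SH.D.Gal k) :
    Pool.Agent.TH841.SH.D.act W σ.toAlgHom
      (Pool.Agent.TH841.SH.D.act W (Algebra.ofId k (AlgebraicClosure k)) P) =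
      Pool.Agent.TH841.SH.D.act W (Algebra.ofId k (AlgebraicClosure k)) P := by
  rcases P with _ | ⟨x, y, hn⟩
  · have e : Pool.Agent.TH841.SH.D.act W (Algebra.ofId k (AlgebraicClosure k))
        (0 : Pool.Agent.TH841.SH.D.Pt W k) = 0 := map_zero _
    change Pool.Agent.TH841.SH.D.act W σ.toAlgHom
      (Pool.Agent.TH841.SH.D.act W (Algebra.ofId k (AlgebraicClosure k))
        (0 : Pool.Agent.TH841.SH.D.Pt W k)) = Pool.Agent.TH841.SH.D.act W
          (Algebra.ofId k (AlgebraicClosure k)) (0 : Pool.Agent.TH841.SH.D.Pt W k)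
    rw [e, map_zero]
  · rw [act_some, act_some]
    exact Pool.Agent.Y692.CT.pt_ext _ _ (σ.commutes x) (σ.commutes y)

end gen

section main

variable {K : Type} [Field K] [NumberField K] {j : Ei ≃+* 𝓞 K} {D : Ei}
  {e : AlgebraicClosure K ≃+* QB} {i₀ : QB} {hi : i₀ ^ 2 + i₀ + 1 = 0} {u : QB}
  {a : GK i₀ → ZMod 3}
  {Ψ : Pool.Agent.TH841.SH.D.Pt (ED (j D : K)) (AlgebraicClosure K) ≃+ Pt QB}
  {g : Pool.Agent.TH841.SH.D.Gal K ≃* GK i₀}

/-- the points over `K` in the geometric points of `E` -/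
noncomputable def em (Ψ : Pool.Agent.TH841.SH.D.Pt (ED (j D : K)) (AlgebraicClosure K) ≃+ Pt QB) :
    Pool.Agent.TH841.SH.D.Pt (ED (j D : K)) K →+ Pt QB :=
  Ψ.toAddMonoidHom.comp (Pool.Agent.TH841.SH.D.act (ED (j D : K))
    (Algebra.ofId K (AlgebraicClosure K)))

lemma em_apply (P : Pool.Agent.TH841.SH.D.Pt (ED (j D : K)) K) :
    em Ψ P = Ψ (Pool.Agent.TH841.SH.D.act (ED (j D : K))
      (Algebra.ofId K (AlgebraicClosure K)) P) := rfl

lemma em_inj : Function.Injective (em Ψ) :=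
  Ψ.injective.comp (act_inj _ _)

lemma em_mem (hT : TrfData K j D e i₀ hi u a Ψ g)
    (P : Pool.Agent.TH841.SH.D.Pt (ED (j D : K)) K) : em Ψ P ∈ AG hi a := by
  intro τ
  obtain ⟨-, -, -, -, -, -, hact⟩ := hT
  obtain ⟨σ, rfl⟩ := g.surjective τ
  rw [ah_apply, em_apply, ← hact, act_ofId]

lemma em_surj (hT : TrfData K j D e i₀ hi u a Ψ g) {R : Pt QB} (hR : R ∈ AG hi a) :
    ∃ P, em Ψ P = R := by
  obtain ⟨-, -, -, -, -, -, hact⟩ := hT
  obtain ⟨Q, rfl⟩ := Ψ.surjective R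
  obtain ⟨P, hP⟩ := descend (ED (j D : K)) Q (fun σ => by
    apply Ψ.injective
    rw [hact]
    exact hR (g σ))
  exact ⟨P, by rw [em_apply, hP]⟩

lemma tor3 (hT : TrfData K j D e i₀ hi u a Ψ g) (hne : ∃ σ, a σ ≠ 0) {P : Pt QB}
    (hP : P ∈ AG hi a) (n : ℕ) (hn : 3 ^ n • P = 0) :
    P = 0 ∨ P = T0 (isE QB) ∨ P = -T0 (isE QB) := by
  obtain ⟨d, hd⟩ := pow_tor hne n (P := P) hP hn
  rcases z3 d with rfl | rfl | rfl
  · left; rw [hd, tt_zero]
  · right; left; rw [hd, tt_one]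
  · right; right; rw [hd, tt_neg_one]

lemma mwc_aux (hT : TrfData K j D e i₀ hi u a Ψ g) (hne : ∃ σ, a σ ≠ 0)
    (hf : Finite (Pool.Agent.TH841.SH.D.Pt (ED (j D : K)) K)) : MwK hi a := by
  refine ⟨?_, fun P hP n hn => tor3 hT hne hP n hn⟩
  refine (Set.finite_range (em Ψ)).subset ?_
  intro R hR
  exact em_surj hT hR

lemma fin_tor {M : Type} [AddCommGroup M] (h : Module.Finite ℤ M) :
    Finite (AddCommGroup.torsion M) := by
  have : IsNoetherian ℤ M := isNoetherian_of_isNoetherianRing_of_finite ℤ M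
  let S : Submodule ℤ M := (AddCommGroup.torsion M).toIntSubmodule
  have h1 : Module.Finite ℤ S := inferInstance
  have h2 : Module.IsTorsion ℤ S := by
    rintro ⟨x, hx⟩
    have hx' : IsOfFinAddOrder x := hx
    obtain ⟨n, hn, h0⟩ := isOfFinAddOrder_iff_nsmul_eq_zero.1 hx'
    refine ⟨⟨(n : ℤ), mem_nonZeroDivisors_of_ne_zero (by exact_mod_cast hn.ne')⟩, ?_⟩
    apply Subtype.ext
    show (n : ℤ) • x = 0
    rw [natCast_zsmul, h0]
  exact Module.finite_of_fg_torsion S h2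

lemma tor_aux (hD : D ≠ 0) (hT : TrfData K j D e i₀ hi u a Ψ g) (hne : ∃ σ, a σ ≠ 0) :
    Finite (AddCommGroup.torsion (Pool.Agent.TH841.SH.D.Pt (ED (j D : K)) K)) ∧
      padicValNat 3 (Nat.card
        (AddCommGroup.torsion (Pool.Agent.TH841.SH.D.Pt (ED (j D : K)) K))) = 1 := by
  have hTw := hT.1
  have hfg : Module.Finite ℤ (AG hi a) := AG_fg (a_mul hD hTw) (a_cont hD hTw)
  have : IsNoetherian ℤ (AG hi a) := isNoetherian_of_isNoetherianRing_of_finite ℤ _
  let f : Pool.Agent.TH841.SH.D.Pt (ED (j D : K)) K →+ AG hi a :=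
    (em Ψ).codRestrict (AG hi a) (em_mem hT)
  have hfinj : Function.Injective f := by
    intro P Q h
    exact em_inj (Ψ := Ψ) (congrArg Subtype.val h)
  have hfin : Module.Finite ℤ (Pool.Agent.TH841.SH.D.Pt (ED (j D : K)) K) :=
    Module.Finite.of_injective f.toIntLinearMap hfinj
  have hft := fin_tor hfin
  refine ⟨hft, ?_⟩
  obtain ⟨T, hTT⟩ := em_surj hT (R := T0 (isE QB)) (by
    have := tt_mem (hi := hi) (a := a) 1
    rwa [tt_one] at this)
  have h3 : 3 • T = 0 := by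
    apply em_inj (Ψ := Ψ)
    rw [map_nsmul, hTT, map_zero]
    exact T0_add3 (isE QB)
  have hT0 : T ≠ 0 := by
    rintro rfl
    rw [map_zero] at hTT
    exact Affine.Point.some_ne_zero _ hTT.symm
  have hTtor : T ∈ AddCommGroup.torsion (Pool.Agent.TH841.SH.D.Pt (ED (j D : K)) K) := by
    show IsOfFinAddOrder T
    exact isOfFinAddOrder_iff_nsmul_eq_zero.2 ⟨3, by norm_num, h3⟩
  refine Pool.Agent.Y692.CT.pv ⟨T, hTtor⟩ (fun h => hT0 (congrArg Subtype.val h))
    (Subtype.ext h3) ?_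
  rintro ⟨P, hP⟩ h9
  have h9' : 9 • P = 0 := congrArg Subtype.val h9
  have h1 : 3 ^ 2 • em Ψ P = 0 := by
    rw [← map_nsmul]
    have : (3 ^ 2 : ℕ) • P = 0 := h9'
    rw [this, map_zero]
  rcases tor3 hT hne (em_mem hT P) 2 h1 with h2 | h2 | h2
  · left
    apply Subtype.ext
    apply em_inj (Ψ := Ψ)
    show em Ψ P = em Ψ 0
    rw [map_zero]
    exact h2
  · right; left
    apply Subtype.ext
    apply em_inj (Ψ := Ψ)
    show em Ψ P = em Ψ T
    rw [hTT]
    exact h2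
  · right; right
    apply Subtype.ext
    apply em_inj (Ψ := Ψ)
    show em Ψ P = em Ψ (-T)
    rw [map_neg, hTT]
    exact h2

end main

/-- **CTK-MWC** -/
theorem t_MWC : S_MWC := by
  intro K _ _ j D hD e i₀ hi u a Ψ g hT hne hf
  exact mwc_aux hT hne hf

/-- **CTK-TOR** -/
theorem t_TORK : S_TORK := by
  intro K _ _ j D hD e i₀ hi u a Ψ g hT hne
  exact tor_aux hD hT hne

end Pool.Agent.Y405.CTK
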